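import Pool.Agent.R330.BP.Union

set_option autoImplicit false

namespace Pool.Agent.Results.MP_330ad9_al.BPLattice

open Pool.Agent.R330.BP

/-- For every Coxeter system: every `w` factors uniquely as `w = w^J w_J`, and the set `BP(w)` of
the `J` for which this is a Billey-Postnikov decomposition is closed under intersection and
union. -/
theorem result {B : Type*} {M : CoxeterMatrix B} {W : Type*} [Group W] (cs : CoxeterSystem M W) :
    (∀ (w : W) (J : Set B), ∃! p : W × W,
      p.1 ∈ minRep cs J ∧ p.2 ∈ parab cs J ∧ w = p.1 * p.2) ∧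
    (∀ (w : W) (J K : Set B), IsBP cs w J → IsBP cs w K →
      IsBP cs w (J ∩ K) ∧ IsBP cs w (J ∪ K)) := by
  refine ⟨fun w J => ?_, fun w J K hJ hK => ⟨inter hJ hK, union hJ hK⟩⟩
  obtain ⟨u, hu, v, hv, h⟩ := exists_right (cs := cs) J w
  refine ⟨(u, v), ⟨hu, hv, h⟩, ?_⟩
  rintro ⟨u', v'⟩ ⟨hu', hv', h'⟩
  have := unique_right hu' hv' hu hv (by rw [← h, ← h'])
  exact Prod.ext this.1 this.2

end Pool.Agent.Results.MP_330ad9_al.BPLattice
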